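import Pool.Agent.H61.PO.Faces

/-!
# Pohl's problem Q2 (MP_beb0a3_gt): definitions

`Zc A`, `Bc A`: local cocycles and coboundaries on `A` (a cocycle is a function on pairs of points of the whole space; only its values near the diagonal of
`A` matter), `h1 A` the dimension over `Z/2` of the Alexander-Spanier cohomology group `H^1(A; Z/2)`.
`Gr M`: a finite graph embedded in `M`.  `IsSub f`: `f` is injective and its image is a union of two-dimensional faces of a `d`-simplex.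
-/

namespace Pool.Agent.H61.PO

open Set Filter Topology

section
variable {X : Type*} [TopologicalSpace X]

/-- local 1-cocycles on `A` -/
def Zc (A : Set X) : Submodule (ZMod 2) (X → X → ZMod 2) where
  carrier := {g | Coc A g}
  add_mem' := by
    intro g h hg hh x hx
    obtain ⟨U, hU, h1⟩ := hg x hx
    obtain ⟨V, hV, h2⟩ := hh x hx
    refine ⟨U ∩ V, Filter.inter_mem hU hV, ?_⟩
    rintro a ⟨⟨ha1, ha2⟩, ha⟩ b ⟨⟨hb1, hb2⟩, hb⟩ c ⟨⟨hc1, hc2⟩, hc⟩
    have e1 := h1 a ⟨ha1, ha⟩ b ⟨hb1, hb⟩ c ⟨hc1, hc⟩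
    have e2 := h2 a ⟨ha2, ha⟩ b ⟨hb2, hb⟩ c ⟨hc2, hc⟩
    simp only [Pi.add_apply]
    rw [← e1, ← e2]
    ring
  zero_mem' := fun x _ => ⟨univ, Filter.univ_mem, by intros; simp⟩
  smul_mem' := by
    intro r g hg x hx
    obtain ⟨U, hU, h1⟩ := hg x hx
    refine ⟨U, hU, fun a ha b hb c hc => ?_⟩
    simp only [Pi.smul_apply, smul_eq_mul]
    rw [← h1 a ha b hb c hc]
    ring

/-- local 1-coboundaries on `A` -/
def Bc (A : Set X) : Submodule (ZMod 2) (X → X → ZMod 2) where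
  carrier := {g | Cob A g}
  add_mem' := by
    rintro g h ⟨s, hs⟩ ⟨t, ht⟩
    refine ⟨s + t, fun x hx => ?_⟩
    obtain ⟨U, hU, h1⟩ := hs x hx
    obtain ⟨V, hV, h2⟩ := ht x hx
    refine ⟨U ∩ V, Filter.inter_mem hU hV, ?_⟩
    rintro a ⟨⟨ha1, ha2⟩, ha⟩ b ⟨⟨hb1, hb2⟩, hb⟩
    simp only [Pi.add_apply]
    rw [h1 a ⟨ha1, ha⟩ b ⟨hb1, hb⟩, h2 a ⟨ha2, ha⟩ b ⟨hb2, hb⟩]
    ring
  zero_mem' := ⟨0, fun x _ => ⟨univ, Filter.univ_mem, by intros; simp⟩⟩
  smul_mem' := by
    rintro r g ⟨s, hs⟩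
    refine ⟨r • s, fun x hx => ?_⟩
    obtain ⟨U, hU, h1⟩ := hs x hx
    refine ⟨U, hU, fun a ha b hb => ?_⟩
    simp only [Pi.smul_apply, smul_eq_mul]
    rw [h1 a ha b hb]
    ring

/-- the cohomology group `H^1(A; Z/2)` -/
abbrev Hc (A : Set X) : Type _ := (Zc A) ⧸ (Bc A).comap (Zc A).subtype

/-- its dimension -/
noncomputable def h1 (A : Set X) : ℕ := Module.finrank (ZMod 2) (Hc A)

end

/-- a finite graph embedded in `M` (simple, no isolated vertices, at least four edges) -/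
structure Gr (M : Type*) [TopologicalSpace M] where
  /-- vertices -/
  κ : Type
  /-- edges -/
  ι : Type
  fκ : Fintype κ
  fι : Fintype ι
  pt : κ → M
  pt_inj : Function.Injective pt
  s : ι → κ
  t : ι → κ
  st : ∀ i, s i ≠ t i
  σ : ι → Set M
  arc : ∀ i, IsArc (σ i) (pt (s i)) (pt (t i))
  vert : ∀ i k, pt k ∈ σ i → k = s i ∨ k = t i
  disj : ∀ i j, i ≠ j → σ i ∩ σ j ⊆ range pt
  simple : ∀ i j, ({s i, t i} : Set κ) = {s j, t j} → i = j
  deg : ∀ k, ∃ i, k = s i ∨ k = t i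
  four : 4 ≤ Nat.card ι

namespace Gr

variable {M : Type*} [TopologicalSpace M] (Γ : Gr M)

/-- the underlying set -/
def set : Set M := ⋃ i, Γ.σ i

/-- the open edge -/
def op (i : Γ.ι) : Set M := Γ.σ i \ {Γ.pt (Γ.s i), Γ.pt (Γ.t i)}

/-- the set of components of the complement -/
def comps : Set (Set M) := {W | ∃ w ∉ Γ.set, W = connectedComponentIn (Γ.set)ᶜ w}

/-- the edge `i` is adjacent to the set `W` -/
def Adj (W : Set M) (i : Γ.ι) : Prop := (closure W ∩ Γ.op i).Nonempty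

/-- the set of the edges adjacent to `W` -/
def adj (W : Set M) : Set Γ.ι := {i | Γ.Adj W i}

end Gr

/-- `f` is injective and its image is a union of triangles spanned by the vertices of a `d`-simplex, `d = dim E` -/
def IsSub {M E : Type*} [NormedAddCommGroup E] [NormedSpace ℝ E] (f : M → E) : Prop :=
  Function.Injective f ∧ ∃ (p : Fin (Module.finrank ℝ E + 1) → E)
    (T : Set (Finset (Fin (Module.finrank ℝ E + 1)))), AffineIndependent ℝ p ∧
      (∀ t ∈ T, t.card = 3) ∧ range f = ⋃ t ∈ T, convexHull ℝ (p '' (t : Set (Fin _)))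

end Pool.Agent.H61.PO
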