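import Pool.Agent.H10.PQ.Ineq
import Pool.Agent.H40.PZ.Cnv
import Pool.Agent.H40.PU.Ind
import Pool.Agent.H61.PR.Res
import Pool.Agent.H61.PO.Main

/-!
# Pohl's conjecture, Q2 of MP_beb0a3_gt: assembly
-/

namespace Pool.Agent.H61.PO

open Set Filter Topology Metric

open scoped RealInnerProductSpace

theorem q2_metric {M : Type*} [MetricSpace M] [CompactSpace M] [ConnectedSpace M]
    {E : Type*} [NormedAddCommGroup E] [NormedSpace ℝ E] [FiniteDimensional ℝ E] {f : M → E}
    (hM : Surf M) (hf : Tight f) (hfull : affineSpan ℝ (range f) = ⊤)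
    (hd : 6 ≤ Module.finrank ℝ E) :
    (Module.finrank ℝ E - 2).choose 2 ≤ 3 * h1 (univ : Set M) ∧
      ((Module.finrank ℝ E - 2).choose 2 = 3 * h1 (univ : Set M) ↔ IsSub f) := by
  have hfin := g2 hM hf hfull hd (ess_finite hM hf hfull hd)
  obtain ⟨x⟩ : Nonempty M := inferInstance
  obtain ⟨e, he, -, -⟩ := hM x univ Filter.univ_mem
  rw [← h1_disc hM he]
  have h0 := Pool.Agent.H10.PQ.q2_ineq hM hf hfin hfull hd he
  refine ⟨h0, fun h => Pool.Agent.H10.PQ.q2_eq hM hf hfin hfull hd he h, fun h => ?_⟩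
  obtain ⟨e', he', h'⟩ := Pool.Agent.H40.PZ.converse hM hf hfull (by omega) h
  rw [h1_disc hM he', ← h1_disc hM he] at h'
  exact le_antisymm h0 h'

theorem q2_main {M : Type*} [TopologicalSpace M] [T2Space M] [CompactSpace M]
    [ConnectedSpace M] [ChartedSpace (EuclideanSpace ℝ (Fin 2)) M] {d : ℕ} (hd : 6 ≤ d)
    {f : M → EuclideanSpace ℝ (Fin d)} (hf : Continuous f)
    (hloc : ∀ x, ∃ U ∈ 𝓝 x, InjOn f U) (hfull : affineSpan ℝ (range f) = ⊤)
    (htight : ∀ (v : EuclideanSpace ℝ (Fin d)) (c : ℝ), IsPreconnected {x | c ≤ ⟪v, f x⟫}) :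
    (d - 2).choose 2 ≤ 3 * h1 (univ : Set M) ∧
      ((d - 2).choose 2 = 3 * h1 (univ : Set M) ↔ IsSub f) := by
  haveI : SecondCountableTopology M :=
    ChartedSpace.secondCountable_of_sigmaCompact (EuclideanSpace ℝ (Fin 2)) M
  haveI : TopologicalSpace.MetrizableSpace M :=
    TopologicalSpace.metrizableSpace_of_t3_secondCountable M
  letI : MetricSpace M := TopologicalSpace.metrizableSpaceMetric M
  have e1 : Module.finrank ℝ (EuclideanSpace ℝ (Fin d)) = d := by simp
  have h := q2_metric (f := f) surf_charted ⟨hf, hloc, fun z c => ?_⟩ hfull (by simpa using hd)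
  · rw [e1] at h
    exact h
  have h := htight ((InnerProductSpace.toDual ℝ _).symm z) c
  have e : {x | c ≤ z (f x)} = {x | c ≤ ⟪(InnerProductSpace.toDual ℝ _).symm z, f x⟫} := by
    ext x
    simp [InnerProductSpace.toDual_symm_apply]
  rw [e]
  exact h

end Pool.Agent.H61.PO
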